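import Pool.Agent.Q255.TQ.Stm2
import Pool.Agent.Q275.FM.SQH

set_option autoImplicit false

/-!
Project TQ (helper255), job HH (helper275): the harmonic sum with the weight `∏_{p | l} p/(p+1)`.
-/

namespace Pool.Agent.Q275.TQ

open Finset Filter Topology MeasureTheory Pool.Agent.H306R2.RZ
open Pool.Agent.Q122.FM (P1 Lp)
open Pool.Agent.Q255.TQ
open Pool.Agent.Q275.FM (mur hh hh_bd sqf_rad)

noncomputable section

/-- the weight at a prime -/
def wp (p : ℕ) : ℝ := 1 / ((p : ℝ) * (p + 1))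

/-- the Moebius transform of `h`, divided by `d` -/
def ff (d : ℕ) : ℝ := mur d * ∏ p ∈ d.primeFactors, wp p

lemma wp_nonneg (p : ℕ) : 0 ≤ wp p := by unfold wp; positivity

lemma wp_le (p : ℕ) (hp : 0 < p) : wp p ≤ ((p : ℝ) ^ 2)⁻¹ := by
  have : (0 : ℝ) < p := by exact_mod_cast hp
  unfold wp
  rw [one_div]
  apply inv_anti₀ (by positivity)
  nlinarith

lemma wp_le_half (p : ℕ) (hp : 2 ≤ p) : wp p ≤ 1 / 6 := by
  have : (2 : ℝ) ≤ p := by exact_mod_cast hp
  unfold wp
  apply one_div_le_one_div_of_le (by norm_num)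
  nlinarith

lemma mur_zero : mur 0 = 0 := by simp [mur]

lemma ff_zero : ff 0 = 0 := by simp [ff, mur_zero]

lemma ff_one : ff 1 = 1 := by simp [ff, mur]

lemma ff_mul {m n : ℕ} (h : m.Coprime n) : ff (m * n) = ff m * ff n := by
  unfold ff mur
  rw [ArithmeticFunction.isMultiplicative_moebius.map_mul_of_coprime h, h.primeFactors_mul,
    prod_union h.disjoint_primeFactors]
  push_cast
  ring

lemma ff_nsq {d : ℕ} (h : ¬ Squarefree d) : ff d = 0 := by
  unfold ff mur
  rw [ArithmeticFunction.moebius_eq_zero_of_not_squarefree h]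
  simp

lemma ff_prime {p : ℕ} (hp : p.Prime) : ff p = -wp p := by
  unfold ff mur
  rw [ArithmeticFunction.moebius_apply_prime hp, hp.primeFactors, prod_singleton]
  push_cast
  ring

lemma ff_bd (d : ℕ) : |ff d| ≤ ((d : ℝ) ^ 2)⁻¹ := by
  by_cases hs : Squarefree d
  · unfold ff
    rw [abs_mul]
    have h1 : |mur d| ≤ 1 := by
      unfold mur
      have := ArithmeticFunction.abs_moebius_le_one (n := d)
      exact_mod_cast this
    have h2 : |∏ p ∈ d.primeFactors, wp p| ≤ ((d : ℝ) ^ 2)⁻¹ := by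
      rw [abs_of_nonneg (prod_nonneg fun p _ => wp_nonneg p)]
      have h3 : ((d : ℝ) ^ 2)⁻¹ = ∏ p ∈ d.primeFactors, ((p : ℝ) ^ 2)⁻¹ := by
        rw [prod_inv_distrib, prod_pow]
        congr 2
        conv_lhs => rw [← Nat.prod_primeFactors_of_squarefree hs]
        push_cast
        rfl
      rw [h3]
      exact prod_le_prod (fun p _ => wp_nonneg p) fun p hp =>
        wp_le p (Nat.prime_of_mem_primeFactors hp).pos
    calc |mur d| * |∏ p ∈ d.primeFactors, wp p| ≤ 1 * ((d : ℝ) ^ 2)⁻¹ :=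
          mul_le_mul h1 h2 (abs_nonneg _) zero_le_one
      _ = _ := one_mul _
  · rw [ff_nsq hs, abs_zero]
    positivity

lemma ff_sqrt (d : ℕ) : |ff d| * Real.sqrt d ≤ 1 / (d : ℝ) ^ (3 / 2 : ℝ) := by
  rcases Nat.eq_zero_or_pos d with h | h
  · rw [h, ff_zero]
    simp
  · have hd : (0 : ℝ) < d := by exact_mod_cast h
    calc |ff d| * Real.sqrt d ≤ ((d : ℝ) ^ 2)⁻¹ * Real.sqrt d :=
          mul_le_mul_of_nonneg_right (ff_bd d) (Real.sqrt_nonneg _)
      _ = 1 / (d : ℝ) ^ (3 / 2 : ℝ) := by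
          have h1 : 1 / (d : ℝ) ^ (3 / 2 : ℝ) = (d : ℝ) ^ (-(3 / 2) : ℝ) := by
            rw [Real.rpow_neg hd.le, one_div]
          rw [h1, Real.sqrt_eq_rpow, ← Real.rpow_natCast, ← Real.rpow_neg hd.le,
            ← Real.rpow_add hd]
          norm_num

lemma sum_sqrt : Summable fun d : ℕ => |ff d| * Real.sqrt d :=
  Summable.of_nonneg_of_le (fun d => by positivity) ff_sqrt
    (Real.summable_one_div_nat_rpow.mpr (by norm_num))

lemma sum_ff : Summable fun d : ℕ => |ff d| := by
  refine Summable.of_nonneg_of_le (fun d => abs_nonneg _) (fun d => ?_) sum_sqrt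
  rcases Nat.eq_zero_or_pos d with h | h
  · rw [h, ff_zero]
    simp
  · have hd : (1 : ℝ) ≤ d := by exact_mod_cast h
    exact le_mul_of_one_le_right (abs_nonneg _) (Real.one_le_sqrt.mpr hd)

lemma log_nonneg' (d : ℕ) : 0 ≤ Real.log d := Real.log_natCast_nonneg d

lemma log_le_sqrt (d : ℕ) : Real.log d ≤ 2 * Real.sqrt d := by
  rcases Nat.eq_zero_or_pos d with h | h
  · rw [h]
    simp
  · have hd : (0 : ℝ) < d := by exact_mod_cast h
    have h1 := Real.log_le_sub_one_of_pos (Real.sqrt_pos.mpr hd)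
    rw [Real.log_sqrt hd.le] at h1
    linarith

lemma sum_log : Summable fun d : ℕ => |ff d| * Real.log d := by
  refine Summable.of_nonneg_of_le (fun d => mul_nonneg (abs_nonneg _) (log_nonneg' d))
    (fun d => ?_) (sum_sqrt.mul_left 2)
  calc |ff d| * Real.log d ≤ |ff d| * (2 * Real.sqrt d) :=
        mul_le_mul_of_nonneg_left (log_le_sqrt d) (abs_nonneg _)
    _ = 2 * (|ff d| * Real.sqrt d) := by ring

lemma sum_ff' : Summable ff := sum_ff.of_abs

lemma sum_log' : Summable fun d : ℕ => ff d * Real.log d := by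
  refine Summable.of_norm (sum_log.congr fun d => ?_)
  rw [Real.norm_eq_abs, abs_mul, abs_of_nonneg (log_nonneg' d)]

/-- the sum of `ff` -/
lemma tsum_ff : ∑' d, ff d = P1 := by
  have h1 := EulerProduct.eulerProduct_tprod (R := ℝ) (f := ff) ff_one (fun {m n} h => ff_mul h)
    sum_ff ff_zero
  rw [← h1, P1]
  refine tprod_congr fun p => ?_
  have h2 : ∀ e ∉ range 2, ff ((p : ℕ) ^ e) = 0 := by
    intro e he
    rw [mem_range, not_lt] at he
    apply ff_nsq
    intro hs
    have h3 : (p : ℕ) * p ∣ (p : ℕ) ^ e := by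
      rw [← sq]
      exact pow_dvd_pow _ he
    exact p.2.not_isUnit (hs _ h3)
  rw [tsum_eq_sum h2, sum_range_succ, sum_range_one, pow_zero, pow_one, ff_one, ff_prime p.2]
  unfold wp
  ring

/-- the sum over the multiples of a prime -/
lemma tsum_dvd (p : Nat.Primes) : (∑' d, if (p : ℕ) ∣ d then ff d else 0) =
    -(P1 * (wp p / (1 - wp p))) := by
  set A : ℝ := ∑' d, if (p : ℕ) ∣ d then ff d else 0 with hA
  have hsA : Summable fun d : ℕ => if (p : ℕ) ∣ d then ff d else 0 := by
    refine Summable.of_norm_bounded sum_ff fun d => ?_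
    split_ifs
    · exact le_rfl
    · simp
  have h1 : A = ∑' m : ℕ, ff (p * m) := by
    rw [hA]
    have hinj : Function.Injective fun m : ℕ => (p : ℕ) * m := fun a b hab =>
      Nat.eq_of_mul_eq_mul_left p.2.pos hab
    rw [← hinj.tsum_eq (f := fun d : ℕ => if (p : ℕ) ∣ d then ff d else 0)]
    · refine tsum_congr fun m => ?_
      rw [if_pos (dvd_mul_right _ _)]
    · intro d hd
      rw [Function.mem_support] at hd
      by_cases h : (p : ℕ) ∣ d
      · obtain ⟨m, rfl⟩ := h
        exact ⟨m, rfl⟩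
      · rw [if_neg h] at hd
        exact absurd rfl hd
  have h2 : ∀ m : ℕ, ff (p * m) = -wp p * (ff m - if (p : ℕ) ∣ m then ff m else 0) := by
    intro m
    by_cases h : (p : ℕ) ∣ m
    · rw [if_pos h, sub_self, mul_zero]
      apply ff_nsq
      intro hs
      obtain ⟨k, rfl⟩ := h
      refine p.2.not_isUnit (hs _ ⟨k, ?_⟩)
      ring
    · rw [if_neg h, sub_zero, ff_mul ((Nat.Prime.coprime_iff_not_dvd p.2).mpr h), ff_prime p.2]
  have h3 : A = -wp p * (P1 - A) := by
    conv_lhs => rw [h1]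
    rw [tsum_congr h2, tsum_mul_left, sum_ff'.tsum_sub hsA, tsum_ff]
  have h4 : wp p ≤ 1 / 6 := wp_le_half p p.2.two_le
  have h5 : 1 - wp p ≠ 0 := by linarith
  field_simp
  linarith

/-- the sum with the logarithm -/
lemma tsum_log : ∑' d : ℕ, ff d * Real.log d = -(P1 * Lp) := by
  have h1 : ∀ d : ℕ, HasSum (fun p : Nat.Primes => if (p : ℕ) ∣ d then ff d * Real.log p else 0)
      (ff d * Real.log d) := by
    intro d
    by_cases hs : Squarefree d
    · have hd0 : d ≠ 0 := hs.ne_zero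
      have h2 : ff d * Real.log d = ∑ p ∈ d.primeFactors, ff d * Real.log p := by
        rw [← mul_sum]
        congr 1
        conv_lhs => rw [← Nat.prod_primeFactors_of_squarefree hs]
        rw [Nat.cast_prod, Real.log_prod]
        intro p hp
        exact_mod_cast (Nat.prime_of_mem_primeFactors hp).ne_zero
      have h3 : HasSum (fun p : {p : ℕ // p.Prime} => (fun q : ℕ => if q ∣ d then
          ff d * Real.log q else 0) p) (ff d * Real.log d) := by
        rw [h2]
        have h4 : HasSum (fun q : ℕ => if q ∈ d.primeFactors then ff d * Real.log q else 0)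
            (∑ p ∈ d.primeFactors, ff d * Real.log p) := by
          have h5 : HasSum (fun q : ℕ => if q ∈ d.primeFactors then ff d * Real.log q else 0)
              (∑ q ∈ d.primeFactors, if q ∈ d.primeFactors then ff d * Real.log q else 0) :=
            hasSum_sum_of_ne_finset_zero (fun q hq => if_neg hq)
          rwa [sum_congr rfl (fun q hq => if_pos hq)] at h5
        have h6 : (fun q : ℕ => if q ∈ d.primeFactors then ff d * Real.log q else 0) =
            Set.indicator {q : ℕ | q.Prime} (fun q : ℕ => if q ∣ d then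
              ff d * Real.log q else 0) := by
          funext q
          by_cases hq : q.Prime
          · rw [Set.indicator_of_mem (show q ∈ {q : ℕ | q.Prime} from hq)]
            by_cases hqd : q ∣ d
            · rw [if_pos hqd, if_pos (Nat.mem_primeFactors.mpr ⟨hq, hqd, hd0⟩)]
            · rw [if_neg hqd, if_neg (fun h => hqd (Nat.dvd_of_mem_primeFactors h))]
          · rw [Set.indicator_of_notMem (show q ∉ {q : ℕ | q.Prime} from hq),
              if_neg (fun h => hq (Nat.prime_of_mem_primeFactors h))]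
        rw [h6] at h4
        exact hasSum_subtype_iff_indicator.mpr h4
      exact h3
    · rw [ff_nsq hs]
      simp
  have h0 : ∀ (d : ℕ) (p : Nat.Primes), ‖if (p : ℕ) ∣ d then ff d * Real.log p else 0‖ =
      if (p : ℕ) ∣ d then |ff d| * Real.log p else 0 := by
    intro d p
    split_ifs
    · rw [Real.norm_eq_abs, abs_mul, abs_of_nonneg (log_nonneg' _)]
    · simp
  have habs : ∀ d : ℕ, HasSum (fun p : Nat.Primes => ‖if (p : ℕ) ∣ d then
      ff d * Real.log p else 0‖) (|ff d| * Real.log d) := by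
    intro d
    rcases le_total 0 (ff d) with h | h
    · have h3 := h1 d
      rw [abs_of_nonneg h]
      refine h3.congr_fun fun p => ?_
      rw [h0, abs_of_nonneg h]
    · have h3 := (h1 d).neg
      rw [abs_of_nonpos h, neg_mul]
      refine h3.congr_fun fun p => ?_
      rw [h0, abs_of_nonpos h]
      split_ifs
      · ring
      · simp
  have hsum : Summable (Function.uncurry fun (d : ℕ) (p : Nat.Primes) =>
      if (p : ℕ) ∣ d then ff d * Real.log p else 0) := by
    refine Summable.of_norm ?_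
    rw [summable_prod_of_nonneg fun _ => norm_nonneg _]
    refine ⟨fun d => (habs d).summable, ?_⟩
    refine sum_log.congr fun d => ?_
    exact (habs d).tsum_eq.symm
  have h2 : (∑' (p : Nat.Primes) (d : ℕ), if (p : ℕ) ∣ d then ff d * Real.log p else 0) =
      ∑' (d : ℕ) (p : Nat.Primes), if (p : ℕ) ∣ d then ff d * Real.log p else 0 := hsum.tsum_comm
  have hLp : Lp = ∑' p : Nat.Primes,
    Real.log ((p : ℕ) : ℝ) / (((p : ℕ) : ℝ) ^ 2 + ((p : ℕ) : ℝ) - 1) := rfl
  have h3 : (∑' d : ℕ, ff d * Real.log d) = ∑' (d : ℕ) (p : Nat.Primes),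
      if (p : ℕ) ∣ d then ff d * Real.log p else 0 := tsum_congr fun d => (h1 d).tsum_eq.symm
  rw [h3, ← h2, hLp, ← neg_mul, ← tsum_mul_left]
  refine tsum_congr fun p => ?_
  have h4 : (fun d : ℕ => if (p : ℕ) ∣ d then ff d * Real.log p else 0) =
      fun d : ℕ => (if (p : ℕ) ∣ d then ff d else 0) * Real.log p := by
    funext d
    split_ifs
    · rfl
    · rw [zero_mul]
  rw [h4, tsum_mul_right, tsum_dvd p]
  have hp2 : (2 : ℝ) ≤ ((p : ℕ) : ℝ) := by exact_mod_cast p.2.two_le
  have h5 : (1 : ℝ) - wp p = (((p : ℕ) : ℝ) ^ 2 + ((p : ℕ) : ℝ) - 1) /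
      (((p : ℕ) : ℝ) * (((p : ℕ) : ℝ) + 1)) := by
    unfold wp
    field_simp
  have h6 : ((p : ℕ) : ℝ) ^ 2 + ((p : ℕ) : ℝ) - 1 ≠ 0 := by nlinarith
  have h7 : ((p : ℕ) : ℝ) * (((p : ℕ) : ℝ) + 1) ≠ 0 := by positivity
  rw [h5]
  unfold wp
  field_simp

/-- the product over the prime factors -/
lemma h_eq (l : ℕ) (hl : 1 ≤ l) : h l = ∑ d ∈ l.divisors, ff d * d := by
  set G : ArithmeticFunction ℝ := ArithmeticFunction.prodPrimeFactors
    (fun p : ℕ => 1 / ((p : ℝ) + 1)) with hG
  have hGm : G.IsMultiplicative := ArithmeticFunction.IsMultiplicative.prodPrimeFactors _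
  set r : ℕ := ∏ p ∈ l.primeFactors, p with hr
  have h1 := hGm.prodPrimeFactors_one_sub_of_squarefree G (sqf_rad l)
  rw [Nat.primeFactors_prod_primeFactors] at h1
  have h2 : h l = ∏ p ∈ l.primeFactors, (1 - G p) := by
    unfold h
    apply prod_congr rfl
    intro p hp
    have hpp := Nat.prime_of_mem_primeFactors hp
    rw [hG, ArithmeticFunction.prodPrimeFactors_apply hpp.ne_zero, hpp.primeFactors,
      prod_singleton]
    have : (0 : ℝ) < (p : ℝ) + 1 := by positivity
    field_simp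
    ring
  rw [h2, h1]
  have hrl : r ∣ l := Nat.prod_primeFactors_dvd l
  have h3 : ∑ d ∈ r.divisors, ((ArithmeticFunction.moebius d : ℤ) : ℝ) * G d =
      ∑ d ∈ r.divisors, ff d * d := by
    apply sum_congr rfl
    intro d hd
    have hd0 := (Nat.pos_of_mem_divisors hd).ne'
    have hds : Squarefree d := (sqf_rad l).squarefree_of_dvd (Nat.dvd_of_mem_divisors hd)
    rw [hG, ArithmeticFunction.prodPrimeFactors_apply hd0]
    unfold ff mur
    rw [mul_assoc]
    congr 1
    have h4 : (d : ℝ) = ∏ p ∈ d.primeFactors, (p : ℝ) := by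
      conv_lhs => rw [← Nat.prod_primeFactors_of_squarefree hds]
      push_cast
      rfl
    conv_rhs => rw [h4]
    rw [← prod_mul_distrib]
    apply prod_congr rfl
    intro p hp
    have hp0 : (p : ℝ) ≠ 0 := by exact_mod_cast (Nat.prime_of_mem_primeFactors hp).ne_zero
    unfold wp
    field_simp
  rw [h3]
  apply sum_subset (Nat.divisors_subset_of_dvd (by omega) hrl)
  intro g hg hg'
  have hns : ¬ Squarefree g := by
    intro hs
    apply hg'
    rw [Nat.mem_divisors] at hg ⊢
    refine ⟨?_, (sqf_rad l).ne_zero⟩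
    rw [← Nat.prod_primeFactors_of_squarefree hs]
    exact prod_dvd_prod_of_subset _ _ _ (Nat.primeFactors_mono hg.1 (by omega))
  rw [ff_nsq hns, zero_mul]

/-- the sum by `ff` -/
lemma sum_h (y : ℝ) : ∑ l ∈ Icc 1 ⌊y⌋₊, h l / (l : ℝ) = ∑' d : ℕ, ff d * hh (y / d) := by
  have h1 : ∑ l ∈ Icc 1 ⌊y⌋₊, h l / (l : ℝ) = ∑ l ∈ Icc 1 ⌊y⌋₊, ∑ d ∈ Icc 1 ⌊y⌋₊,
      (if d ∣ l then ff d * d / l else 0) := by
    apply sum_congr rfl
    intro l hl
    rw [mem_Icc] at hl
    rw [h_eq l hl.1, sum_div, ← sum_filter]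
    apply sum_congr
    · ext d
      rw [Nat.mem_divisors, mem_filter, mem_Icc]
      constructor
      · rintro ⟨h2, h3⟩
        exact ⟨⟨Nat.pos_of_dvd_of_pos h2 hl.1, (Nat.le_of_dvd hl.1 h2).trans hl.2⟩, h2⟩
      · rintro ⟨-, h2⟩
        exact ⟨h2, by omega⟩
    · exact fun _ _ => rfl
  have h2 : ∑' d : ℕ, ff d * hh (y / d) = ∑ d ∈ Icc 1 ⌊y⌋₊, ff d * hh (y / d) := by
    apply tsum_eq_sum
    intro d hd
    rcases Nat.eq_zero_or_pos d with h | h
    · rw [h, ff_zero, zero_mul]
    · rw [mem_Icc, not_and, not_le] at hd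
      have h3 := hd h
      have h4 : ⌊y / d⌋₊ = 0 := by
        rw [Nat.floor_div_natCast]
        exact Nat.div_eq_of_lt h3
      unfold hh
      rw [h4]
      simp
  rw [h1, h2, sum_comm]
  apply sum_congr rfl
  intro g hg
  have hg0 : 0 < g := (mem_Icc.mp hg).1
  have hg0' : (0 : ℝ) < g := by exact_mod_cast hg0
  rw [← sum_filter, hh, Nat.floor_div_natCast, mul_sum]
  symm
  apply sum_bij (fun (u : ℕ) _ => g * u)
  · intro u hu
    rw [mem_Icc] at hu
    rw [mem_filter, mem_Icc]
    refine ⟨⟨Nat.mul_pos hg0 hu.1, ?_⟩, dvd_mul_right g u⟩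
    rw [mul_comm]
    exact (Nat.le_div_iff_mul_le hg0).mp hu.2
  · intro u _ u' _ h
    exact Nat.eq_of_mul_eq_mul_left hg0 h
  · intro v hv
    rw [mem_filter, mem_Icc] at hv
    obtain ⟨⟨h2, h3⟩, h4⟩ := hv
    obtain ⟨u, rfl⟩ := h4
    refine ⟨u, ?_, rfl⟩
    rw [mem_Icc]
    refine ⟨Nat.pos_of_mul_pos_left h2, ?_⟩
    rw [Nat.le_div_iff_mul_le hg0, mul_comm]
    exact h3
  · intro u hu
    rw [mem_Icc] at hu
    have : (0 : ℝ) < u := by exact_mod_cast hu.1
    push_cast
    field_simp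

theorem t_HH : S_HH := by
  refine ⟨3 * (∑' d : ℕ, |ff d| * Real.sqrt d) + 1, ?_, ?_⟩
  · have : 0 ≤ ∑' d : ℕ, |ff d| * Real.sqrt d := tsum_nonneg fun d => by positivity
    linarith
  intro y hy
  have hpow : 0 ≤ y ^ (-(1 / 2) : ℝ) := Real.rpow_nonneg hy.le _
  have herr : ∀ d : ℕ, |ff d * hh (y / d) - ff d * (Real.log y - Real.log d +
      Real.eulerMascheroniConstant)| ≤ 3 * y ^ (-(1 / 2) : ℝ) * (|ff d| * Real.sqrt d) := by
    intro d
    rcases Nat.eq_zero_or_pos d with h | h
    · rw [h, ff_zero]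
      simp
    have hd : (0 : ℝ) < d := by exact_mod_cast h
    have h1 := hh_bd (y / d) (by positivity)
    rw [Real.log_div hy.ne' hd.ne'] at h1
    have h6 : (y / d) ^ (-(1 / 2) : ℝ) = y ^ (-(1 / 2) : ℝ) * Real.sqrt d := by
      rw [Real.div_rpow hy.le hd.le, Real.rpow_neg hd.le, Real.sqrt_eq_rpow, div_inv_eq_mul]
    rw [← mul_sub, abs_mul]
    calc |ff d| * |hh (y / d) - (Real.log y - Real.log d + Real.eulerMascheroniConstant)| ≤
          |ff d| * (3 * (y / d) ^ (-(1 / 2) : ℝ)) := mul_le_mul_of_nonneg_left h1 (abs_nonneg _)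
      _ = _ := by rw [h6]; ring
  have herr' : ∀ d : ℕ, ‖ff d * hh (y / d) - ff d * (Real.log y - Real.log d +
      Real.eulerMascheroniConstant)‖ ≤ 3 * y ^ (-(1 / 2) : ℝ) * (|ff d| * Real.sqrt d) := herr
  have hmain : HasSum (fun d : ℕ => ff d * (Real.log y - Real.log d +
      Real.eulerMascheroniConstant)) (P1 * (Real.log y + Real.eulerMascheroniConstant + Lp)) := by
    have h1 := (sum_ff'.hasSum.mul_right (Real.log y + Real.eulerMascheroniConstant)).sub
      sum_log'.hasSum
    rw [tsum_ff, tsum_log] at h1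
    convert! h1 using 1
    · funext d
      ring
    · ring
  have hes : Summable fun d : ℕ => ff d * hh (y / d) - ff d * (Real.log y - Real.log d +
      Real.eulerMascheroniConstant) :=
    Summable.of_norm_bounded (sum_sqrt.mul_left (3 * y ^ (-(1 / 2) : ℝ))) herr
  have hs2 : Summable fun d : ℕ => ff d * hh (y / d) := by
    have h1 := hes.add hmain.summable
    refine h1.congr fun d => ?_
    ring
  rw [sum_h y, ← hmain.tsum_eq, ← hs2.tsum_sub hmain.summable]
  calc |∑' d : ℕ, (ff d * hh (y / d) - ff d * (Real.log y - Real.log d +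
        Real.eulerMascheroniConstant))| ≤ ∑' d : ℕ, 3 * y ^ (-(1 / 2) : ℝ) *
          (|ff d| * Real.sqrt d) := by
        have h1 := tsum_of_norm_bounded (sum_sqrt.mul_left (3 * y ^ (-(1 / 2) : ℝ))).hasSum herr'
        exact h1
    _ = 3 * y ^ (-(1 / 2) : ℝ) * ∑' d : ℕ, |ff d| * Real.sqrt d := tsum_mul_left
    _ ≤ (3 * (∑' d : ℕ, |ff d| * Real.sqrt d) + 1) * y ^ (-(1 / 2) : ℝ) := by nlinarith

end

end Pool.Agent.Q275.TQ
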