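import Pool.Agent.Q255.TQ.Stm2
import Pool.Agent.Q275.FM.LMI

set_option autoImplicit false

/-!
Project TQ (helper255), job Q1M (helper275): the main term for `k = 1`.
-/

namespace Pool.Agent.Q275.TQ

open Finset Filter Topology MeasureTheory Pool.Agent.H306R2.RZ
open Pool.Agent.Q122.FM (P1 Q1 lam IG)
open Pool.Agent.Q255.TQ
open Pool.Agent.Q275.FM (t_LMI int0)

noncomputable section

lemma gm_pos' (a : ℕ) : 0 < gm (1 / 2 + a) := by
  unfold gm
  have : (0 : ℝ) < (1 / 2 + (a : ℝ)) / 2 := by positivity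
  exact mul_pos (Real.rpow_pos_of_pos Real.pi_pos _) (Real.Gamma_pos_of_pos this)

lemma h_nonneg (l : ℕ) : 0 ≤ h l := prod_nonneg fun p _ => by positivity

lemma h_le_one (l : ℕ) : h l ≤ 1 := by
  unfold h
  refine prod_le_one (fun p _ => by positivity) fun p _ => ?_
  rw [div_le_one (by positivity)]
  linarith

/-- the weight in the integral -/
def ww (a : ℕ) (t : ℝ) : ℝ := t ^ ((a : ℝ) / 2 - 3 / 4) * Real.exp (-(Real.pi * t))

lemma ww_nonneg (a : ℕ) {t : ℝ} (ht : 0 < t) : 0 ≤ ww a t :=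
  mul_nonneg (Real.rpow_nonneg ht.le _) (Real.exp_pos _).le

lemma ww_rpow (a : ℕ) (s : ℝ) (hs : -(1 / 4) < s) :
    IntegrableOn (fun t => ww a t * t ^ s) (Set.Ioi 0) := by
  have h1 : (0 : ℝ) < (a : ℝ) / 2 - 3 / 4 + s + 1 := by
    have : (0 : ℝ) ≤ a := Nat.cast_nonneg a
    linarith
  refine (int0 _ h1).congr_fun ?_ measurableSet_Ioi
  intro t ht
  have ht' : (0 : ℝ) < t := ht
  simp only [ww]
  rw [add_sub_cancel_right, Real.rpow_add ht']
  ring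

lemma pt_term (a l : ℕ) (x : ℝ) (hl : 1 ≤ l) (hx : 0 < x) :
    V a (((l ^ 2 : ℕ) : ℝ) / Real.sqrt x) = 2 / gm (1 / 2 + a) *
      ∫ t in Set.Ioi (0 : ℝ), (if (l : ℝ) ^ 4 / x ≤ t then ww a t else 0) := by
  have hl' : (0 : ℝ) < l := by exact_mod_cast hl
  unfold V
  congr 1
  have h1 : (((l ^ 2 : ℕ) : ℝ) / Real.sqrt x) ^ 2 = (l : ℝ) ^ 4 / x := by
    rw [div_pow, Real.sq_sqrt hx.le, Nat.cast_pow, ← pow_mul]
  rw [h1]
  unfold IG
  rw [← integral_Ici_eq_integral_Ioi]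
  have h2 : (fun t : ℝ => if (l : ℝ) ^ 4 / x ≤ t then ww a t else 0) =
      (Set.Ici ((l : ℝ) ^ 4 / x)).indicator (ww a) := by
    funext t
    by_cases ht : (l : ℝ) ^ 4 / x ≤ t
    · rw [if_pos ht, Set.indicator_of_mem (Set.mem_Ici.mpr ht)]
    · rw [if_neg ht, Set.indicator_of_notMem (fun h => ht (Set.mem_Ici.mp h))]
  rw [h2, setIntegral_indicator measurableSet_Ici, Set.inter_eq_self_of_subset_right]
  · rfl
  · intro t ht
    have h3 : 0 < (l : ℝ) ^ 4 / x := by positivity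
    exact lt_of_lt_of_le h3 ht

/-- the comparison of the sums -/
lemma cmp (C : ℝ) (hC : ∀ y : ℝ, 0 < y → |∑ l ∈ Icc 1 ⌊y⌋₊, h l / (l : ℝ) -
    P1 * (Real.log y + Real.eulerMascheroniConstant + Q122.FM.Lp)| ≤ C * y ^ (-(1 / 2) : ℝ))
    (X : ℕ) (x t : ℝ) (hx : 0 < x) (hxX : x ≤ X) (ht : 0 < t) :
    |∑ l ∈ Icc 1 (Nat.sqrt X), (if (l : ℝ) ^ 4 / x ≤ t then h l / (l : ℝ) else 0) -
      P1 * ((Real.log x + Real.log t) / 4 + Real.eulerMascheroniConstant + Q122.FM.Lp)| ≤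
      x ^ (-(1 / 8) : ℝ) * (C * t ^ (-(1 / 8) : ℝ) + t ^ (5 / 8 : ℝ)) := by
  have hxt : 0 < x * t := mul_pos hx ht
  set y : ℝ := (x * t) ^ (1 / 4 : ℝ) with hy
  have hy0 : 0 < y := Real.rpow_pos_of_pos hxt _
  have hlog : Real.log y = (Real.log x + Real.log t) / 4 := by
    rw [hy, Real.log_rpow hxt, Real.log_mul hx.ne' ht.ne']
    ring
  have hy4 : y ^ 4 = x * t := by
    rw [hy, ← Real.rpow_natCast, ← Real.rpow_mul hxt.le]
    norm_num
  have hyh : y ^ (-(1 / 2) : ℝ) = x ^ (-(1 / 8) : ℝ) * t ^ (-(1 / 8) : ℝ) := by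
    rw [hy, ← Real.rpow_mul hxt.le, ← Real.mul_rpow hx.le ht.le]
    norm_num
  have hiff : ∀ l : ℕ, (l : ℝ) ^ 4 / x ≤ t ↔ l ≤ ⌊y⌋₊ := by
    intro l
    rw [div_le_iff₀ hx, mul_comm t x, ← hy4, Nat.le_floor_iff hy0.le]
    exact pow_le_pow_iff_left₀ (Nat.cast_nonneg l) hy0.le four_ne_zero
  have hD : ∑ l ∈ Icc 1 (Nat.sqrt X), (if (l : ℝ) ^ 4 / x ≤ t then h l / (l : ℝ) else 0) =
      ∑ l ∈ Icc 1 (min (Nat.sqrt X) ⌊y⌋₊), h l / (l : ℝ) := by
    rw [← sum_filter]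
    apply sum_congr
    · ext l
      rw [mem_filter, mem_Icc, mem_Icc, hiff, le_min_iff]
      tauto
    · exact fun _ _ => rfl
  have hnn : ∀ l : ℕ, 0 ≤ h l / (l : ℝ) := fun l => div_nonneg (h_nonneg l) (Nat.cast_nonneg l)
  have h1 : |∑ l ∈ Icc 1 (min (Nat.sqrt X) ⌊y⌋₊), h l / (l : ℝ) -
      ∑ l ∈ Icc 1 ⌊y⌋₊, h l / (l : ℝ)| ≤ x ^ (-(1 / 8) : ℝ) * t ^ (5 / 8 : ℝ) := by
    rcases le_or_gt ⌊y⌋₊ (Nat.sqrt X) with h2 | h2
    · rw [min_eq_right h2, sub_self, abs_zero]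
      positivity
    · have h3 : ∑ l ∈ Icc 1 (min (Nat.sqrt X) ⌊y⌋₊), h l / (l : ℝ) ≤
          ∑ l ∈ Icc 1 ⌊y⌋₊, h l / (l : ℝ) :=
        sum_le_sum_of_subset_of_nonneg (Icc_subset_Icc_right (min_le_right _ _))
          fun l _ _ => hnn l
      have h4 : 0 ≤ ∑ l ∈ Icc 1 (min (Nat.sqrt X) ⌊y⌋₊), h l / (l : ℝ) :=
        sum_nonneg fun l _ => hnn l
      have h5 : ∑ l ∈ Icc 1 ⌊y⌋₊, h l / (l : ℝ) ≤ y := by
        calc ∑ l ∈ Icc 1 ⌊y⌋₊, h l / (l : ℝ) ≤ ∑ l ∈ Icc 1 ⌊y⌋₊, (1 : ℝ) := by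
              apply sum_le_sum
              intro l hl
              have : (1 : ℝ) ≤ l := by exact_mod_cast (mem_Icc.mp hl).1
              rw [div_le_one (by linarith)]
              exact (h_le_one l).trans this
          _ = ⌊y⌋₊ := by simp
          _ ≤ y := Nat.floor_le hy0.le
      have h6 : x ≤ y ^ 2 := by
        have h7 : X < (Nat.sqrt X + 1) ^ 2 := Nat.lt_succ_sqrt' X
        have h8 : ((Nat.sqrt X + 1 : ℕ) : ℝ) ≤ y := by
          calc ((Nat.sqrt X + 1 : ℕ) : ℝ) ≤ (⌊y⌋₊ : ℝ) := by exact_mod_cast h2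
            _ ≤ y := Nat.floor_le hy0.le
        calc x ≤ X := hxX
          _ ≤ ((Nat.sqrt X + 1 : ℕ) : ℝ) ^ 2 := by exact_mod_cast h7.le
          _ ≤ y ^ 2 := pow_le_pow_left₀ (Nat.cast_nonneg _) h8 2
      have h9 : y ≤ x ^ (-(1 / 8) : ℝ) * t ^ (5 / 8 : ℝ) := by
        have h10 : (y ^ 2) ^ (-(3 / 4) : ℝ) ≤ x ^ (-(3 / 4) : ℝ) :=
          Real.rpow_le_rpow_of_nonpos hx h6 (by norm_num)
        have h11 : y = (x * t) ^ (5 / 8 : ℝ) * (y ^ 2) ^ (-(3 / 4) : ℝ) := by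
          rw [hy, ← Real.rpow_natCast, ← Real.rpow_mul hxt.le, ← Real.rpow_mul hxt.le,
            ← Real.rpow_add hxt]
          norm_num
        have h12 : x ^ (-(1 / 8) : ℝ) * t ^ (5 / 8 : ℝ) =
            (x * t) ^ (5 / 8 : ℝ) * x ^ (-(3 / 4) : ℝ) := by
          rw [Real.mul_rpow hx.le ht.le]
          have h13 : x ^ (-(1 / 8) : ℝ) = x ^ (5 / 8 : ℝ) * x ^ (-(3 / 4) : ℝ) := by
            rw [← Real.rpow_add hx]
            norm_num
          rw [h13]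
          ring
        rw [h12]
        conv_lhs => rw [h11]
        exact mul_le_mul_of_nonneg_left h10 (Real.rpow_nonneg hxt.le _)
      rw [abs_sub_comm, abs_of_nonneg (by linarith)]
      linarith
  have h2 := hC y hy0
  rw [hlog, hyh] at h2
  rw [hD]
  calc _ ≤ |∑ l ∈ Icc 1 (min (Nat.sqrt X) ⌊y⌋₊), h l / (l : ℝ) -
          ∑ l ∈ Icc 1 ⌊y⌋₊, h l / (l : ℝ)| + |∑ l ∈ Icc 1 ⌊y⌋₊, h l / (l : ℝ) -
          P1 * ((Real.log x + Real.log t) / 4 + Real.eulerMascheroniConstant +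
            Q122.FM.Lp)| := abs_sub_le _ _ _
    _ ≤ x ^ (-(1 / 8) : ℝ) * t ^ (5 / 8 : ℝ) +
          C * (x ^ (-(1 / 8) : ℝ) * t ^ (-(1 / 8) : ℝ)) := add_le_add h1 h2
    _ = _ := by ring

/-- the pointwise comparison -/
lemma pt (hhs : S_HH) (a : ℕ) (ha : a = 0 ∨ a = 1) : ∃ K : ℝ, 0 ≤ K ∧ ∀ (X : ℕ) (x : ℝ),
    0 < x → x ≤ X → |∑ l ∈ Icc 1 (Nat.sqrt X), h l / (l : ℝ) *
      V a (((l ^ 2 : ℕ) : ℝ) / Real.sqrt x) - Q1 a (Real.log x)| ≤ K * x ^ (-(1 / 8) : ℝ) := by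
  obtain ⟨C, hC0, hC⟩ := hhs
  obtain ⟨i1, i2, e1, e2⟩ := t_LMI a ha
  have hc := gm_pos' a
  set c : ℝ := gm (1 / 2 + a) with hcdef
  have i1' : IntegrableOn (ww a) (Set.Ioi 0) := i1
  have i2' : IntegrableOn (fun t => ww a t * Real.log t) (Set.Ioi 0) := i2
  have e1' : ∫ t in Set.Ioi (0 : ℝ), ww a t = c := e1
  have e2' : ∫ t in Set.Ioi (0 : ℝ), ww a t * Real.log t = c * lam a := e2
  have j1 := ww_rpow a (-(1 / 8)) (by norm_num)
  have j2 := ww_rpow a (5 / 8) (by norm_num)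
  have j3 : IntegrableOn (fun t => ww a t * (C * t ^ (-(1 / 8) : ℝ) + t ^ (5 / 8 : ℝ)))
      (Set.Ioi 0) := by
    refine ((j1.const_mul C).add j2).congr (ae_of_all _ fun t => ?_)
    simp only [Pi.add_apply]
    ring
  refine ⟨2 / c * ∫ t in Set.Ioi (0 : ℝ), ww a t * (C * t ^ (-(1 / 8) : ℝ) + t ^ (5 / 8 : ℝ)),
    ?_, ?_⟩
  · refine mul_nonneg (by positivity) (setIntegral_nonneg measurableSet_Ioi fun t ht => ?_)
    have ht' : (0 : ℝ) < t := ht
    have := ww_nonneg a ht'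
    positivity
  intro X x hx hxX
  -- the sum as an integral
  have hS : ∑ l ∈ Icc 1 (Nat.sqrt X), h l / (l : ℝ) *
      V a (((l ^ 2 : ℕ) : ℝ) / Real.sqrt x) = 2 / c * ∫ t in Set.Ioi (0 : ℝ), ww a t *
        ∑ l ∈ Icc 1 (Nat.sqrt X), (if (l : ℝ) ^ 4 / x ≤ t then h l / (l : ℝ) else 0) := by
    have h1 : ∀ l ∈ Icc 1 (Nat.sqrt X), h l / (l : ℝ) *
        V a (((l ^ 2 : ℕ) : ℝ) / Real.sqrt x) = 2 / c * ∫ t in Set.Ioi (0 : ℝ), ww a t *
          (if (l : ℝ) ^ 4 / x ≤ t then h l / (l : ℝ) else 0) := by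
      intro l hl
      rw [pt_term a l x (mem_Icc.mp hl).1 hx, ← mul_assoc, mul_comm (h l / (l : ℝ)), mul_assoc,
        ← integral_const_mul]
      congr 1
      refine setIntegral_congr_fun measurableSet_Ioi fun t _ => ?_
      change h l / (l : ℝ) * (if (l : ℝ) ^ 4 / x ≤ t then ww a t else 0) = _
      split_ifs
      · ring
      · ring
    rw [sum_congr rfl h1, ← mul_sum, ← integral_finsetSum]
    · congr 1
      refine setIntegral_congr_fun measurableSet_Ioi fun t _ => ?_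
      exact (mul_sum _ _ _).symm
    · intro l _
      have h2 : (fun t : ℝ => ww a t * (if (l : ℝ) ^ 4 / x ≤ t then h l / (l : ℝ) else 0)) =
          (Set.Ici ((l : ℝ) ^ 4 / x)).indicator (fun t => ww a t * (h l / (l : ℝ))) := by
        funext t
        by_cases ht : (l : ℝ) ^ 4 / x ≤ t
        · rw [if_pos ht, Set.indicator_of_mem (Set.mem_Ici.mpr ht)]
        · rw [if_neg ht, Set.indicator_of_notMem (fun h => ht (Set.mem_Ici.mp h)), mul_zero]
      rw [h2]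
      exact (i1'.mul_const _).indicator measurableSet_Ici
  have hDi : IntegrableOn (fun t => ww a t * ∑ l ∈ Icc 1 (Nat.sqrt X),
      (if (l : ℝ) ^ 4 / x ≤ t then h l / (l : ℝ) else 0)) (Set.Ioi 0) := by
    have h1 : (fun t => ww a t * ∑ l ∈ Icc 1 (Nat.sqrt X),
        (if (l : ℝ) ^ 4 / x ≤ t then h l / (l : ℝ) else 0)) = fun t =>
          ∑ l ∈ Icc 1 (Nat.sqrt X), ww a t *
            (if (l : ℝ) ^ 4 / x ≤ t then h l / (l : ℝ) else 0) := by
      funext t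
      exact mul_sum _ _ _
    rw [h1]
    refine integrable_finsetSum _ fun l _ => ?_
    have h2 : (fun t : ℝ => ww a t * (if (l : ℝ) ^ 4 / x ≤ t then h l / (l : ℝ) else 0)) =
        (Set.Ici ((l : ℝ) ^ 4 / x)).indicator (fun t => ww a t * (h l / (l : ℝ))) := by
      funext t
      by_cases ht : (l : ℝ) ^ 4 / x ≤ t
      · rw [if_pos ht, Set.indicator_of_mem (Set.mem_Ici.mpr ht)]
      · rw [if_neg ht, Set.indicator_of_notMem (fun h => ht (Set.mem_Ici.mp h)), mul_zero]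
    rw [h2]
    exact (i1'.mul_const _).indicator measurableSet_Ici
  -- the main term as an integral
  have hMi : IntegrableOn (fun t => ww a t * (P1 * ((Real.log x + Real.log t) / 4 +
      Real.eulerMascheroniConstant + Q122.FM.Lp))) (Set.Ioi 0) := by
    refine ((i1'.mul_const (P1 * (Real.log x / 4 + Real.eulerMascheroniConstant +
      Q122.FM.Lp))).add (i2'.mul_const (P1 / 4))).congr (ae_of_all _ fun t => ?_)
    simp only [Pi.add_apply]
    ring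
  have hM : Q1 a (Real.log x) = 2 / c * ∫ t in Set.Ioi (0 : ℝ), ww a t *
      (P1 * ((Real.log x + Real.log t) / 4 + Real.eulerMascheroniConstant + Q122.FM.Lp)) := by
    have h1 : ∫ t in Set.Ioi (0 : ℝ), ww a t * (P1 * ((Real.log x + Real.log t) / 4 +
        Real.eulerMascheroniConstant + Q122.FM.Lp)) =
        c * (P1 * (Real.log x / 4 + Real.eulerMascheroniConstant + Q122.FM.Lp)) +
          c * lam a * (P1 / 4) := by
      rw [← e2', ← e1', ← integral_mul_const, ← integral_mul_const,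
        ← integral_add (i1'.mul_const _) (i2'.mul_const _)]
      refine setIntegral_congr_fun measurableSet_Ioi fun t _ => ?_
      ring
    rw [h1]
    unfold Q1
    field_simp
    ring
  rw [hS, hM, ← mul_sub, ← integral_sub hDi hMi, abs_mul, abs_of_pos (by positivity), mul_assoc]
  refine mul_le_mul_of_nonneg_left ?_ (by positivity)
  rw [← integral_mul_const]
  have h3 := norm_integral_le_of_norm_le (μ := volume.restrict (Set.Ioi (0 : ℝ)))
    (f := fun t => ww a t * ∑ l ∈ Icc 1 (Nat.sqrt X),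
      (if (l : ℝ) ^ 4 / x ≤ t then h l / (l : ℝ) else 0) -
        ww a t * (P1 * ((Real.log x + Real.log t) / 4 + Real.eulerMascheroniConstant +
          Q122.FM.Lp)))
    (g := fun t => ww a t * (C * t ^ (-(1 / 8) : ℝ) + t ^ (5 / 8 : ℝ)) * x ^ (-(1 / 8) : ℝ))
    (j3.mul_const _) (by
      filter_upwards [ae_restrict_mem measurableSet_Ioi] with t ht
      have ht' : (0 : ℝ) < t := ht
      rw [← mul_sub, norm_mul, Real.norm_of_nonneg (ww_nonneg a ht'), Real.norm_eq_abs, mul_assoc]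
      refine mul_le_mul_of_nonneg_left ?_ (ww_nonneg a ht')
      have := cmp C hC X x t hx hxX ht'
      rwa [mul_comm (x ^ (-(1 / 8) : ℝ))] at this)
  exact h3

/-- the sum over squares -/
lemma MM_eq (ε : ℤ) (X : ℕ) : MM ε 1 X = 3 / Real.pi ^ 2 * ∑ l ∈ Icc 1 (Nat.sqrt X),
    h l / (l : ℝ) * ∫ x in Set.Ioc (0 : ℝ) X, V (par ε) (((l ^ 2 : ℕ) : ℝ) / Real.sqrt x) := by
  unfold MM
  congr 1
  symm
  refine sum_bij (fun (l : ℕ) _ => fun _ : Fin 1 => l ^ 2) ?_ ?_ ?_ ?_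
  · intro l hl
    rw [mem_Icc] at hl
    rw [mem_filter, Tu, Fintype.mem_piFinset]
    refine ⟨fun _ => mem_Icc.mpr ⟨Nat.one_le_pow _ _ hl.1, ?_⟩, ?_⟩
    · exact (Nat.pow_le_pow_left hl.2 2).trans (Nat.sqrt_le' X)
    · rw [Fin.prod_univ_one]
      exact ⟨l, sq l⟩
  · intro l _ l' _ h
    have h1 : l ^ 2 = l' ^ 2 := congrFun h 0
    exact Nat.pow_left_injective two_ne_zero h1
  · intro t ht
    rw [mem_filter, Tu, Fintype.mem_piFinset, Fin.prod_univ_one] at ht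
    obtain ⟨h1, r, hr⟩ := ht
    have h2 := mem_Icc.mp (h1 0)
    refine ⟨r, ?_, ?_⟩
    · rw [mem_Icc]
      constructor
      · by_contra hcon
        have hr0 : r = 0 := by omega
        rw [hr0] at hr
        omega
      · rw [Nat.le_sqrt]
        rw [← hr]
        exact h2.2
    · funext i
      have hi : i = 0 := Subsingleton.elim _ _
      rw [hi, hr, sq]
  · intro l hl
    have hl1 := (mem_Icc.mp hl).1
    simp only [Fin.prod_univ_one]
    have h1 : h (l ^ 2) = h l := by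
      unfold h
      rw [Nat.primeFactors_pow l two_ne_zero]
    have h2 : Real.sqrt ((l ^ 2 : ℕ) : ℝ) = l := by
      rw [Nat.cast_pow, Real.sqrt_sq (Nat.cast_nonneg l)]
    rw [h1, h2]

lemma V_int (vp : S_VP) (a : ℕ) (ha : a = 0 ∨ a = 1) (m X : ℕ) (hm : 1 ≤ m) :
    IntegrableOn (fun x => V a ((m : ℝ) / Real.sqrt x)) (Set.Ioc (0 : ℝ) X) := by
  obtain ⟨h1, h2, -⟩ := vp a ha
  have hm' : (0 : ℝ) < m := by exact_mod_cast hm
  have hmeas : AEMeasurable (fun x => V a ((m : ℝ) / Real.sqrt x))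
      (volume.restrict (Set.Ioc (0 : ℝ) X)) := by
    refine aemeasurable_restrict_of_monotoneOn measurableSet_Ioc ?_
    intro x hx y hy hxy
    have hx0 : (0 : ℝ) < x := hx.1
    have hy0 : (0 : ℝ) < y := hy.1
    have hsx := Real.sqrt_pos.mpr hx0
    have hsy := Real.sqrt_pos.mpr hy0
    refine h2 _ _ (by positivity) ?_
    exact div_le_div_of_nonneg_left hm'.le hsx (Real.sqrt_le_sqrt hxy)
  refine Integrable.of_bound hmeas.aestronglyMeasurable 2 ?_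
  filter_upwards [ae_restrict_mem measurableSet_Ioc] with x hx
  have hsx := Real.sqrt_pos.mpr hx.1
  have h3 := h1 ((m : ℝ) / Real.sqrt x) (by positivity)
  rw [Real.norm_of_nonneg h3.1.le]
  exact h3.2

theorem t_Q1M (hhs : S_HH) (vp : S_VP) : S_Q1M := by
  obtain ⟨K0, hK00, hK0⟩ := pt hhs 0 (Or.inl rfl)
  obtain ⟨K1, hK10, hK1⟩ := pt hhs 1 (Or.inr rfl)
  have hQi : ∀ (a : ℕ) (u v : ℝ), IntervalIntegrable (fun t => Q1 a (Real.log t)) volume u v := by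
    intro a u v
    have h1 : IntervalIntegrable Real.log volume u v := intervalIntegral.intervalIntegrable_log'
    unfold Q1
    exact (((((h1.add intervalIntegrable_const).div_const 2).add intervalIntegrable_const).add
      intervalIntegrable_const).const_mul P1)
  set B : ℝ := |∫ t in (0 : ℝ)..1, Q1 0 (Real.log t)| + |∫ t in (0 : ℝ)..1, Q1 1 (Real.log t)| with hB
  have hB0 : 0 ≤ B := by positivity
  refine ⟨3 / Real.pi ^ 2 * ((K0 + K1) * (8 / 7) + B) + 1, by positivity, ?_⟩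
  intro ε hε X hX
  have hX1 : (1 : ℝ) ≤ X := by exact_mod_cast hX
  have hX0 : (0 : ℝ) ≤ X := by linarith
  set a : ℕ := par ε with hadef
  have ha : a = 0 ∨ a = 1 := by
    rw [hadef]
    unfold par
    split_ifs
    · exact Or.inl rfl
    · exact Or.inr rfl
  have hpt : ∀ x : ℝ, 0 < x → x ≤ X → |∑ l ∈ Icc 1 (Nat.sqrt X), h l / (l : ℝ) *
      V a (((l ^ 2 : ℕ) : ℝ) / Real.sqrt x) - Q1 a (Real.log x)| ≤
        (K0 + K1) * x ^ (-(1 / 8) : ℝ) := by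
    intro x hx hxX
    have hp : 0 ≤ x ^ (-(1 / 8) : ℝ) := Real.rpow_nonneg hx.le _
    rcases ha with h | h
    · rw [h]
      refine (hK0 X x hx hxX).trans ?_
      nlinarith [mul_nonneg hK10 hp]
    · rw [h]
      refine (hK1 X x hx hxX).trans ?_
      nlinarith [mul_nonneg hK00 hp]
  have hBa : |∫ t in (0 : ℝ)..1, Q1 a (Real.log t)| ≤ B := by
    rcases ha with h | h
    · rw [h, hB]
      linarith [abs_nonneg (∫ t in (0 : ℝ)..1, Q1 1 (Real.log t))]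
    · rw [h, hB]
      linarith [abs_nonneg (∫ t in (0 : ℝ)..1, Q1 0 (Real.log t))]
  have hVi : ∀ l ∈ Icc 1 (Nat.sqrt X), IntegrableOn (fun x => h l / (l : ℝ) *
      V a (((l ^ 2 : ℕ) : ℝ) / Real.sqrt x)) (Set.Ioc (0 : ℝ) X) := fun l hl =>
    (V_int vp a ha (l ^ 2) X (Nat.one_le_pow _ _ (mem_Icc.mp hl).1)).const_mul _
  have hS : ∑ l ∈ Icc 1 (Nat.sqrt X),
      h l / (l : ℝ) * ∫ x in Set.Ioc (0 : ℝ) X, V a (((l ^ 2 : ℕ) : ℝ) / Real.sqrt x) =
      ∫ x in (0 : ℝ)..X, ∑ l ∈ Icc 1 (Nat.sqrt X), h l / (l : ℝ) *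
        V a (((l ^ 2 : ℕ) : ℝ) / Real.sqrt x) := by
    rw [intervalIntegral.integral_of_le hX0, integral_finsetSum _ hVi]
    refine sum_congr rfl fun l _ => ?_
    rw [integral_const_mul]
  have hSi : IntervalIntegrable (fun x => ∑ l ∈ Icc 1 (Nat.sqrt X), h l / (l : ℝ) *
      V a (((l ^ 2 : ℕ) : ℝ) / Real.sqrt x)) volume 0 X := by
    rw [intervalIntegrable_iff_integrableOn_Ioc_of_le hX0]
    exact integrable_finsetSum _ hVi
  have hmain : |(∫ x in (0 : ℝ)..X, ∑ l ∈ Icc 1 (Nat.sqrt X), h l / (l : ℝ) *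
      V a (((l ^ 2 : ℕ) : ℝ) / Real.sqrt x)) - ∫ x in (0 : ℝ)..X, Q1 a (Real.log x)| ≤
      (K0 + K1) * (8 / 7) * (X : ℝ) ^ (7 / 8 : ℝ) := by
    rw [← intervalIntegral.integral_sub hSi (hQi a 0 X)]
    have hpi : IntervalIntegrable (fun x : ℝ => (K0 + K1) * x ^ (-(1 / 8) : ℝ)) volume 0 X :=
      (intervalIntegral.intervalIntegrable_rpow' (by norm_num)).const_mul _
    have h1 := intervalIntegral.norm_integral_le_of_norm_le (a := 0) (b := X) (μ := volume)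
      (f := fun x => ∑ l ∈ Icc 1 (Nat.sqrt X), h l / (l : ℝ) *
        V a (((l ^ 2 : ℕ) : ℝ) / Real.sqrt x) - Q1 a (Real.log x))
      (g := fun x : ℝ => (K0 + K1) * x ^ (-(1 / 8) : ℝ)) hX0
      (ae_of_all _ fun x hx => hpt x hx.1 hx.2) hpi
    rw [Real.norm_eq_abs] at h1
    refine h1.trans (le_of_eq ?_)
    rw [intervalIntegral.integral_const_mul, integral_rpow (Or.inl (by norm_num))]
    have h2 : (-(1 / 8) : ℝ) + 1 = 7 / 8 := by norm_num
    rw [h2, Real.zero_rpow (by norm_num)]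
    ring
  have hsplit : ∫ t in (1 : ℝ)..X, Q1 a (Real.log t) =
      (∫ x in (0 : ℝ)..X, Q1 a (Real.log x)) - ∫ t in (0 : ℝ)..1, Q1 a (Real.log t) := by
    rw [← intervalIntegral.integral_add_adjacent_intervals (hQi a 0 1) (hQi a 1 X)]
    ring
  have hpow : 1 ≤ (X : ℝ) ^ (7 / 8 : ℝ) := Real.one_le_rpow hX1 (by norm_num)
  rw [MM_eq, hS, ← mul_sub, abs_mul, abs_of_pos (by positivity : (0 : ℝ) < 3 / Real.pi ^ 2)]
  have h5 : |(∫ x in (0 : ℝ)..X, ∑ l ∈ Icc 1 (Nat.sqrt X), h l / (l : ℝ) *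
      V a (((l ^ 2 : ℕ) : ℝ) / Real.sqrt x)) - ∫ t in (1 : ℝ)..X, Q1 a (Real.log t)| ≤
      (K0 + K1) * (8 / 7) * (X : ℝ) ^ (7 / 8 : ℝ) + B := by
    rw [hsplit]
    have h6 : ∀ p q r : ℝ, p - (q - r) = (p - q) + r := fun p q r => by ring
    rw [h6]
    exact (abs_add_le _ _).trans (add_le_add hmain hBa)
  calc 3 / Real.pi ^ 2 * |(∫ x in (0 : ℝ)..X, ∑ l ∈ Icc 1 (Nat.sqrt X), h l / (l : ℝ) *
        V a (((l ^ 2 : ℕ) : ℝ) / Real.sqrt x)) - ∫ t in (1 : ℝ)..X, Q1 a (Real.log t)| ≤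
        3 / Real.pi ^ 2 * ((K0 + K1) * (8 / 7) * (X : ℝ) ^ (7 / 8 : ℝ) + B) :=
        mul_le_mul_of_nonneg_left h5 (by positivity)
    _ ≤ 3 / Real.pi ^ 2 * (((K0 + K1) * (8 / 7) + B) * (X : ℝ) ^ (7 / 8 : ℝ)) := by
        refine mul_le_mul_of_nonneg_left ?_ (by positivity)
        nlinarith
    _ ≤ (3 / Real.pi ^ 2 * ((K0 + K1) * (8 / 7) + B) + 1) * (X : ℝ) ^ (7 / 8 : ℝ) := by
        nlinarith

end

end Pool.Agent.Q275.TQ
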